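import Mathlib

/-!
Definitions for problem MP_6bb66b_gt: quasicontinuous functions, the space `Q_p(X, ℝ)`,
semi-regular spaces, open Whyburn spaces, and Jensen's principle diamond on `ω₁`.
-/

set_option autoImplicit false

namespace Pool.Agent.Lib.MP_6bb66b_gt

universe u

/-- `f : X → ℝ` is quasicontinuous: for every `x`, every open `U ∋ x` and every open `V ∋ f x`
there is a nonempty open `G ⊆ U` with `f(G) ⊆ V`. -/
def Quasicontinuous {X : Type u} [TopologicalSpace X] (f : X → ℝ) : Prop :=
  ∀ x : X, ∀ U : Set X, IsOpen U → x ∈ U → ∀ V : Set ℝ, IsOpen V → f x ∈ V →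
    ∃ G : Set X, IsOpen G ∧ G.Nonempty ∧ G ⊆ U ∧ ∀ y ∈ G, f y ∈ V

/-- The space `Q_p(X, ℝ)` of all quasicontinuous functions `X → ℝ` with the topology of pointwise
convergence (the subspace topology from the product `X → ℝ`). -/
abbrev Qp (X : Type u) [TopologicalSpace X] : Type u := {f : X → ℝ // Quasicontinuous f}

/-- `X` is semi-regular: the regular open sets `U = int (cl U)` form a base of its topology. -/
def SemiRegular (X : Type u) [TopologicalSpace X] : Prop :=
  TopologicalSpace.IsTopologicalBasis {U : Set X | interior (closure U) = U}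

/-- `X` is open Whyburn: for every open `A` and every `x ∈ cl A \ A` there is an open `B ⊆ A` with
`cl B \ A = {x}`. -/
def OpenWhyburn (X : Type u) [TopologicalSpace X] : Prop :=
  ∀ A : Set X, IsOpen A → ∀ x ∈ closure A \ A, ∃ B : Set X, IsOpen B ∧ B ⊆ A ∧
    closure B \ A = {x}

/-- The set `ω₁` of countable ordinals, as the canonical well-ordered type of order type `ω₁`. -/
abbrev Omega1 : Type := (Ordinal.omega.{0} 1).ToType

/-- Jensen's diamond principle: there are sets `S_α` (`α < ω₁`) such that for every `A ⊆ ω₁` the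
set of all `α < ω₁` with `A ∩ α = S_α ∩ α` is stationary in `ω₁`. -/
def Diamond : Prop :=
  ∃ S : Omega1 → Set Omega1, ∀ A : Set Omega1,
    IsStationary {α : Omega1 | A ∩ Set.Iio α = S α ∩ Set.Iio α}

end Pool.Agent.Lib.MP_6bb66b_gt
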