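import Pool.Agent.Lib.MP_6bb66b_gt.FU

/-!
Construction of a free Suslin tree from the diamond principle.
-/

set_option autoImplicit false
set_option linter.unusedSectionVars false

namespace Pool.Agent.Lib.MP_6bb66b_gt

open Set Order

variable {W : Type} [LinearOrder W]

/-- The coherence properties of a system of projections below the level `δ`. -/
structure Below (δ : W) (π : W → W → ℕ → ℕ) : Prop where
  self : ∀ a, a < δ → ∀ n, π a a n = n
  comp : ∀ a b c, c ≤ b → b ≤ a → a < δ → ∀ n, π b c (π a b n) = π a c n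
  inf : ∀ a b, b < a → a < δ → ∀ m, {n | π a b n = m}.Infinite

/-- `D` is dense above the tuple `l₀` of level `a₀` in the system below `δ`. -/
def DenseBelow (δ : W) (π : W → W → ℕ → ℕ) (D : Set (W × List ℕ)) (a₀ : W) (l₀ : List ℕ) : Prop :=
  ∀ b, a₀ ≤ b → b < δ → ∀ l : List ℕ, l.map (π b a₀) = l₀ →
    ∃ c, b ≤ c ∧ c < δ ∧ ∃ l' : List ℕ, l'.map (π c b) = l ∧ (c, l') ∈ D

/-- `ρ` is a good choice of the level `δ` on top of the system `π`, sealing the set `D`. -/
structure GoodExt (δ : W) (π : W → W → ℕ → ℕ) (D : Set (W × List ℕ)) (ρ : W → ℕ → ℕ) : Prop where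
  comp : ∀ b c, c ≤ b → b < δ → ∀ n, π b c (ρ b n) = ρ c n
  inf : ∀ b, b < δ → ∀ m, {n | ρ b n = m}.Infinite
  sep : IsSuccLimit δ → ∀ n n', n ≠ n' → ∃ b, b < δ ∧ ρ b n ≠ ρ b n'
  sealing : ∀ a₀, a₀ < δ → ∀ l : List ℕ, l.Nodup → DenseBelow δ π D a₀ (l.map (ρ a₀)) →
    ∃ c, a₀ ≤ c ∧ c < δ ∧ (c, l.map (ρ c)) ∈ D

/-- The set of `n` with given first coordinate is infinite. -/
lemma infinite_unpair (m : ℕ) : {n : ℕ | (Nat.unpair n).1 = m}.Infinite := by
  have h : Function.Injective (fun j : ℕ => Nat.pair m j) := by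
    intro i j hij
    have := congrArg Nat.unpair hij
    simp only [Nat.unpair_pair] at this
    exact (Prod.mk.inj this).2
  refine (Set.infinite_range_of_injective h).mono ?_
  rintro _ ⟨j, rfl⟩
  simp

/-- The finite approximations to a limit level. -/
structure Cond (δ : W) where
  α : W
  hα : α < δ
  k : ℕ
  v : ℕ → ℕ
  inj : ∀ i < k, ∀ j < k, v i = v j → i = j

/-- The extension relation between conditions. -/
def Cond.Le {δ : W} (π : W → W → ℕ → ℕ) (p q : Cond δ) : Prop :=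
  p.α ≤ q.α ∧ p.k ≤ q.k ∧ ∀ i < p.k, π q.α p.α (q.v i) = p.v i

lemma Cond.le_refl {δ : W} {π : W → W → ℕ → ℕ} (h : Below δ π) (p : Cond δ) : Cond.Le π p p :=
  ⟨le_rfl, le_rfl, fun i _ => h.self p.α p.hα _⟩

lemma Cond.le_trans {δ : W} {π : W → W → ℕ → ℕ} (h : Below δ π) {p q r : Cond δ}
    (h1 : Cond.Le π p q) (h2 : Cond.Le π q r) : Cond.Le π p r := by
  refine ⟨h1.1.trans h2.1, h1.2.1.trans h2.2.1, fun i hi => ?_⟩
  rw [← h.comp r.α q.α p.α h1.1 h2.1 r.hα, h2.2.2 i (lt_of_lt_of_le hi h1.2.1), h1.2.2 i hi]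

lemma Below.surj {δ : W} {π : W → W → ℕ → ℕ} (h : Below δ π) {a b : W} (hba : b ≤ a)
    (ha : a < δ) (m : ℕ) : ∃ n, π a b n = m := by
  rcases hba.eq_or_lt with rfl | hlt
  · exact ⟨m, h.self _ ha m⟩
  · exact (h.inf a b hlt ha m).nonempty

/-- Raising the level of a condition, with prescribed values on a list of indices. -/
lemma Cond.raise {δ : W} {π : W → W → ℕ → ℕ} (h : Below δ π) (p : Cond δ) {c : W} (hpc : p.α ≤ c)
    (hc : c < δ) (u : ℕ → ℕ) (L : Set ℕ) (hu : ∀ i ∈ L, i < p.k → π c p.α (u i) = p.v i) :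
    ∃ q : Cond δ, Cond.Le π p q ∧ q.α = c ∧ q.k = p.k ∧ ∀ i ∈ L, q.v i = u i := by
  classical
  have h1 : ∀ i, ∃ n, π c p.α n = p.v i := fun i => h.surj hpc hc _
  choose w hw using h1
  let v : ℕ → ℕ := fun i => if i ∈ L then u i else w i
  have hv : ∀ i < p.k, π c p.α (v i) = p.v i := by
    intro i hi
    by_cases hiL : i ∈ L
    · have : v i = u i := if_pos hiL
      rw [this]; exact hu i hiL hi
    · have : v i = w i := if_neg hiL
      rw [this]; exact hw i
  refine ⟨⟨c, hc, p.k, v, ?_⟩, ⟨hpc, le_rfl, hv⟩, rfl, rfl, fun i hi => if_pos hi⟩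
  intro i hi j hj hij
  apply p.inj i hi j hj
  rw [← hv i hi, ← hv j hj, hij]

/-- Adding one more index to a condition. -/
lemma Cond.push {δ : W} {π : W → W → ℕ → ℕ} (h : Below δ π) (p : Cond δ) (x : ℕ)
    (hx : ∀ i < p.k, p.v i ≠ x) :
    ∃ q : Cond δ, Cond.Le π p q ∧ q.α = p.α ∧ q.k = p.k + 1 ∧ q.v p.k = x := by
  classical
  let v : ℕ → ℕ := fun i => if i = p.k then x else p.v i
  have hv : ∀ i < p.k, v i = p.v i := fun i hi => if_neg hi.ne
  have hvk : v p.k = x := if_pos rfl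
  refine ⟨⟨p.α, p.hα, p.k + 1, v, ?_⟩, ⟨le_rfl, Nat.le_succ _, ?_⟩, rfl, rfl, hvk⟩
  · intro i hi j hj hij
    rcases Nat.lt_succ_iff_lt_or_eq.1 hi with h1 | h1 <;>
      rcases Nat.lt_succ_iff_lt_or_eq.1 hj with h2 | h2
    · rw [hv i h1, hv j h2] at hij
      exact p.inj i h1 j h2 hij
    · rw [hv i h1, h2, hvk] at hij
      exact absurd hij (hx i h1)
    · rw [h1, hvk, hv j h2] at hij
      exact absurd hij.symm (hx j h2)
    · rw [h1, h2]
  · intro i hi
    show π p.α p.α (v i) = p.v i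
    rw [h.self p.α p.hα, hv i hi]

/-- Values outside a finite initial segment. -/
lemma exists_fresh (k : ℕ) (v : ℕ → ℕ) {S : Set ℕ} (hS : S.Infinite) :
    ∃ x ∈ S, ∀ i < k, v i ≠ x := by
  obtain ⟨x, hxS, hx⟩ := hS.exists_notMem_finset ((Finset.range k).image v)
  refine ⟨x, hxS, fun i hi h => hx ?_⟩
  exact Finset.mem_image.2 ⟨i, Finset.mem_range.2 hi, h⟩

lemma Cond.grow {δ : W} {π : W → W → ℕ → ℕ} (h : Below δ π) (p : Cond δ) (N : ℕ) :
    ∃ q : Cond δ, Cond.Le π p q ∧ q.α = p.α ∧ N ≤ q.k := by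
  induction N with
  | zero => exact ⟨p, Cond.le_refl h p, rfl, Nat.zero_le _⟩
  | succ N ih =>
    obtain ⟨q, hq1, hq2, hq3⟩ := ih
    obtain ⟨x, -, hx⟩ := exists_fresh q.k q.v (S := Set.univ) Set.infinite_univ
    obtain ⟨r, hr1, hr2, hr3, -⟩ := q.push h x hx
    exact ⟨r, Cond.le_trans h hq1 hr1, hr2.trans hq2, by omega⟩

/-- The requirement met at one step. -/
def Req (δ : W) (π : W → W → ℕ → ℕ) (D : Set (W × List ℕ)) (β : W) (m n : ℕ) (l : List ℕ)
    (p : Cond δ) : Prop :=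
  β ≤ p.α ∧ (∃ i, n ≤ i ∧ i < p.k ∧ π p.α β (p.v i) = m) ∧ (∀ i ∈ l, i < p.k) ∧
    (l.Nodup → DenseBelow δ π D β ((l.map p.v).map (π p.α β)) →
      ∃ c, β ≤ c ∧ c ≤ p.α ∧ (c, (l.map p.v).map (π p.α c)) ∈ D)

/-- A function taking prescribed values on the entries of a list without repetitions. -/
lemma exists_fun_of_nodup {l : List ℕ} (hl : l.Nodup) (l' : List ℕ) (hlen : l'.length = l.length) :
    ∃ u : ℕ → ℕ, l.map u = l' := by
  classical
  induction l generalizing l' with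
  | nil =>
    refine ⟨id, ?_⟩
    rw [List.length_nil, List.length_eq_zero_iff] at hlen
    rw [hlen]; rfl
  | cons a l ih =>
    cases l' with
    | nil => simp at hlen
    | cons b l' =>
      obtain ⟨u, hu⟩ := ih (List.nodup_cons.1 hl).2 l' (by simpa using hlen)
      refine ⟨fun i => if i = a then b else u i, ?_⟩
      rw [List.map_cons, if_pos rfl]
      congr 1
      rw [← hu]
      apply List.map_congr_left
      intro i hi
      have : i ≠ a := fun h => (List.nodup_cons.1 hl).1 (h ▸ hi)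
      exact if_neg this

lemma req_dense {δ : W} {π : W → W → ℕ → ℕ} (h : Below δ π)
    (hlim : ∀ a, a < δ → ∃ b, a < b ∧ b < δ) (D : Set (W × List ℕ)) (β : W)
    (hβ : β < δ) (m n : ℕ) (l : List ℕ) (p : Cond δ) :
    ∃ q : Cond δ, Cond.Le π p q ∧ Req δ π D β m n l q := by
  classical
  -- raise the level above β
  obtain ⟨β', hββ', hβ'⟩ := hlim β hβ
  obtain ⟨p1, h1, h1α⟩ : ∃ q : Cond δ, Cond.Le π p q ∧ β < q.α := by
    obtain ⟨q, hq1, hq2, -, -⟩ := p.raise h (c := max p.α β') (le_max_left _ _)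
      (max_lt p.hα hβ') (fun _ => 0) ∅ (fun i hi => absurd hi (Set.notMem_empty i))
    exact ⟨q, hq1, by rw [hq2]; exact hββ'.trans_le (le_max_right _ _)⟩
  -- many indices
  obtain ⟨p2, h2, h2α, h2k⟩ := p1.grow h (n + l.sum + 1)
  -- a new index above m
  obtain ⟨x, hxm, hx⟩ := exists_fresh p2.k p2.v (h.inf p2.α β (by rw [h2α]; exact h1α) p2.hα m)
  obtain ⟨p3, h3, h3α, h3k, h3v⟩ := p2.push h x hx
  have hβ3 : β ≤ p3.α := by rw [h3α, h2α]; exact h1α.le
  have hi₀ : π p3.α β (p3.v p2.k) = m := by rw [h3v, h3α]; exact hxm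
  have hl3 : ∀ i ∈ l, i < p3.k := by
    intro i hi
    have := List.le_sum_of_mem hi
    omega
  have hp3 : Cond.Le π p p3 := Cond.le_trans h (Cond.le_trans h h1 h2) h3
  by_cases hD : l.Nodup ∧ DenseBelow δ π D β ((l.map p3.v).map (π p3.α β))
  · obtain ⟨hl, hD⟩ := hD
    obtain ⟨c, hc1, hc2, l', hl', hl'D⟩ := hD p3.α hβ3 p3.hα (l.map p3.v) rfl
    have hlen : l'.length = l.length := by
      have := congrArg List.length hl'
      simpa using this
    obtain ⟨u, hu⟩ := exists_fun_of_nodup hl l' hlen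
    have hu2 : ∀ i ∈ l, π c p3.α (u i) = p3.v i := by
      rw [← hu, List.map_map] at hl'
      intro i hi
      exact List.map_inj_left.1 hl' i hi
    obtain ⟨q, hq1, hq2, hq3, hq4⟩ := p3.raise h hc1 hc2 u {i | i ∈ l}
      (fun i hi _ => hu2 i hi)
    have hqv : l.map q.v = l' := by
      rw [← hu]
      apply List.map_congr_left
      intro i hi
      exact hq4 i hi
    refine ⟨q, Cond.le_trans h hp3 hq1, hβ3.trans hq1.1, ⟨p2.k, by omega, by omega, ?_⟩, ?_, ?_⟩
    · rw [← h.comp q.α p3.α β hβ3 hq1.1 q.hα, hq1.2.2 p2.k (by omega)]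
      exact hi₀
    · intro i hi
      rw [hq3]; exact hl3 i hi
    · intro _ _
      refine ⟨c, hβ3.trans hc1, hq2.symm.le, ?_⟩
      rw [hqv, hq2]
      have : l'.map (π c c) = l' := by
        conv_rhs => rw [← List.map_id l']
        apply List.map_congr_left
        intro i _
        exact h.self c hc2 i
      rw [this]
      exact hl'D
  · exact ⟨p3, hp3, hβ3, ⟨p2.k, by omega, by omega, hi₀⟩, hl3,
      fun h1 h2 => absurd ⟨h1, h2⟩ hD⟩

/-- The limit step of the construction. -/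
lemma exists_ext_limit {δ : W} {π : W → W → ℕ → ℕ} (h : Below δ π)
    (hlim : ∀ a, a < δ → ∃ b, a < b ∧ b < δ) (hne : ∃ a, a < δ) (hc : (Set.Iio δ).Countable)
    (D : Set (W × List ℕ)) : ∃ ρ, GoodExt δ π D ρ := by
  classical
  obtain ⟨a₁, ha₁⟩ := hne
  let p₀ : Cond δ := ⟨a₁, ha₁, 0, fun _ => 0, fun i hi => absurd hi (Nat.not_lt_zero i)⟩
  let ι : Type := (Set.Iio δ) × ℕ × ℕ × List ℕ
  have : Countable (Set.Iio δ) := hc.to_subtype
  have : Countable ι := inferInstance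
  have : Nonempty ι := ⟨(⟨a₁, ha₁⟩, 0, 0, [])⟩
  obtain ⟨r, hr⟩ := exists_surjective_nat ι
  have hstep : ∀ (i : ℕ) (p : Cond δ), ∃ q : Cond δ, Cond.Le π p q ∧
      Req δ π D (r i).1.1 (r i).2.1 (r i).2.2.1 (r i).2.2.2 q := fun i p =>
    req_dense h hlim D _ (r i).1.2 _ _ _ p
  choose nx hnx1 hnx2 using hstep
  let P : ℕ → Cond δ := fun s => Nat.rec p₀ (fun i p => nx i p) s
  have hP1 : ∀ s, Cond.Le π (P s) (P (s + 1)) := fun s => hnx1 s (P s)
  have hP2 : ∀ s, Req δ π D (r s).1.1 (r s).2.1 (r s).2.2.1 (r s).2.2.2 (P (s + 1)) :=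
    fun s => hnx2 s (P s)
  have hP3 : ∀ s j, Cond.Le π (P s) (P (s + j)) := by
    intro s j
    induction j with
    | zero => exact Cond.le_refl h _
    | succ j ih => exact Cond.le_trans h ih (hP1 _)
  have hP4 : ∀ s s', s ≤ s' → Cond.Le π (P s) (P s') := by
    intro s s' hss'
    obtain ⟨j, rfl⟩ := Nat.exists_eq_add_of_le hss'
    exact hP3 s j
  have hreq : ∀ (β : W) (hβ : β < δ) (m n : ℕ) (l : List ℕ), ∃ s, Req δ π D β m n l (P s) := by
    intro β hβ m n l
    obtain ⟨i, hi⟩ := hr (⟨β, hβ⟩, m, n, l)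
    refine ⟨i + 1, ?_⟩
    have := hP2 i
    rw [hi] at this
    exact this
  -- the new level
  have hgood : ∀ (b : W) (hb : b < δ) (n : ℕ), ∃ s, b ≤ (P s).α ∧ n < (P s).k := by
    intro b hb n
    obtain ⟨s, hs⟩ := hreq b hb 0 0 [n]
    exact ⟨s, hs.1, hs.2.2.1 n (by simp)⟩
  let ρ : W → ℕ → ℕ := fun b n =>
    if hb : b < δ then π (P (Classical.choose (hgood b hb n))).α b
      ((P (Classical.choose (hgood b hb n))).v n) else 0
  have hagree : ∀ (b : W) (n s s' : ℕ), b ≤ (P s).α → n < (P s).k → s ≤ s' →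
      π (P s').α b ((P s').v n) = π (P s).α b ((P s).v n) := by
    intro b n s s' hb hn hss'
    have h1 := hP4 s s' hss'
    rw [← h.comp (P s').α (P s).α b hb h1.1 (P s').hα, h1.2.2 n hn]
  have hρ : ∀ (b : W) (n s : ℕ), b ≤ (P s).α → n < (P s).k →
      ρ b n = π (P s).α b ((P s).v n) := by
    intro b n s hb hn
    have hbδ : b < δ := lt_of_le_of_lt hb (P s).hα
    have h1 : ρ b n = π (P (Classical.choose (hgood b hbδ n))).α b
      ((P (Classical.choose (hgood b hbδ n))).v n) := dif_pos hbδ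
    have h2 := Classical.choose_spec (hgood b hbδ n)
    rw [h1]
    rcases le_total (Classical.choose (hgood b hbδ n)) s with h3 | h3
    · exact (hagree b n _ _ h2.1 h2.2 h3).symm
    · exact hagree b n _ _ hb hn h3
  refine ⟨ρ, ⟨?_, ?_, ?_, ?_⟩⟩
  · intro b c hcb hb n
    obtain ⟨s, hs1, hs2⟩ := hgood b hb n
    rw [hρ b n s hs1 hs2, hρ c n s (hcb.trans hs1) hs2]
    exact h.comp _ _ _ hcb hs1 (P s).hα _
  · intro b hb m
    apply Set.infinite_of_forall_exists_gt
    intro N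
    obtain ⟨s, hs⟩ := hreq b hb m (N + 1) []
    obtain ⟨i, hi1, hi2, hi3⟩ := hs.2.1
    refine ⟨i, ?_, by omega⟩
    show ρ b i = m
    rw [hρ b i s hs.1 hi2]
    exact hi3
  · intro _ n n' hnn'
    obtain ⟨s, hs⟩ := hreq a₁ ha₁ 0 0 [n, n']
    have hn : n < (P s).k := hs.2.2.1 n (by simp)
    have hn' : n' < (P s).k := hs.2.2.1 n' (by simp)
    refine ⟨(P s).α, (P s).hα, ?_⟩
    rw [hρ _ n s le_rfl hn, hρ _ n' s le_rfl hn', h.self _ (P s).hα, h.self _ (P s).hα]
    intro heq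
    exact hnn' ((P s).inj n hn n' hn' heq)
  · intro a₀ ha₀ l hl hdense
    obtain ⟨s, hs⟩ := hreq a₀ ha₀ 0 0 l
    have hmap : ∀ b, b ≤ (P s).α → (l.map (P s).v).map (π (P s).α b) = l.map (ρ b) := by
      intro b hb
      rw [List.map_map]
      apply List.map_congr_left
      intro i hi
      exact (hρ b i s hb (hs.2.2.1 i hi)).symm
    obtain ⟨c, hc1, hc2, hc3⟩ := hs.2.2.2 hl (by rw [hmap a₀ hs.1]; exact hdense)
    refine ⟨c, hc1, lt_of_le_of_lt hc2 (P s).hα, ?_⟩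
    rw [← hmap c hc2]
    exact hc3

/-- The successor step of the construction. -/
lemma exists_ext_succ {δ α : W} {π : W → W → ℕ → ℕ} (h : Below δ π) (hα : α < δ)
    (hδ : ∀ b, b < δ → b ≤ α) (D : Set (W × List ℕ)) : ∃ ρ, GoodExt δ π D ρ := by
  refine ⟨fun b n => π α b (Nat.unpair n).1, ⟨?_, ?_, ?_, ?_⟩⟩
  · intro b c hcb hb n
    exact h.comp α b c hcb (hδ b hb) hα _
  · intro b hb m
    obtain ⟨m', hm'⟩ := h.surj (hδ b hb) hα m
    refine (infinite_unpair m').mono ?_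
    intro n hn
    show π α b (Nat.unpair n).1 = m
    have : (Nat.unpair n).1 = m' := hn
    rw [this, hm']
  · intro hlim
    exfalso
    exact hlim.2 α ⟨hα, fun c hc hcδ => absurd hc (not_lt.2 (hδ c hcδ))⟩
  · intro a₀ ha₀ l _ hdense
    obtain ⟨c, hc1, hc2, l', hl', hl'D⟩ := hdense α (hδ a₀ ha₀) hα
      (l.map (fun n => (Nat.unpair n).1)) (by
        rw [List.map_map]; rfl)
    have hcα : c = α := le_antisymm (hδ c hc2) hc1
    subst hcα
    refine ⟨c, hδ a₀ ha₀, hc2, ?_⟩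
    have h1 : l'.map (π c c) = l' := by
      conv_rhs => rw [← List.map_id l']
      apply List.map_congr_left
      intro i _
      exact h.self c hc2 i
    rw [h1] at hl'
    rw [hl'] at hl'D
    have h2 : l.map (fun n => π c c (Nat.unpair n).1) = l.map (fun n => (Nat.unpair n).1) := by
      apply List.map_congr_left
      intro i _
      exact h.self c hc2 _
    rw [h2]
    exact hl'D

lemma exists_ext_any {δ : W} {π : W → W → ℕ → ℕ} (h : Below δ π)
    (hc : (Set.Iio δ).Countable) (D : Set (W × List ℕ)) : ∃ ρ, GoodExt δ π D ρ := by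
  by_cases hne : ∃ a, a < δ
  · by_cases hlim : ∀ a, a < δ → ∃ b, a < b ∧ b < δ
    · exact exists_ext_limit h hlim hne hc D
    · push Not at hlim
      obtain ⟨α, hα, hα2⟩ := hlim
      refine exists_ext_succ h hα (fun b hb => ?_) D
      by_contra hcon
      exact absurd hb (not_lt.2 (hα2 b (not_le.1 hcon)))
  · push Not at hne
    refine ⟨fun _ n => n, ⟨fun b c _ hb => absurd hb (not_lt.2 (hne b)),
      fun b hb => absurd hb (not_lt.2 (hne b)), ?_,
      fun a ha => absurd ha (not_lt.2 (hne a))⟩⟩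
    intro hlim
    exfalso
    exact hlim.1 (fun b _ => hne b)

/-- `GoodExt` depends only on the system below `δ`. -/
lemma GoodExt.congr {δ : W} {π π' : W → W → ℕ → ℕ} {D : Set (W × List ℕ)} {ρ : W → ℕ → ℕ}
    (hππ' : ∀ a, a < δ → π a = π' a) (h : GoodExt δ π D ρ) : GoodExt δ π' D ρ := by
  refine ⟨?_, h.inf, h.sep, ?_⟩
  · intro b c hcb hb n
    rw [← hππ' b hb]
    exact h.comp b c hcb hb n
  · intro a₀ ha₀ l hl hdense
    apply h.sealing a₀ ha₀ l hl
    intro b hb1 hb2 l₁ hl₁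
    rw [hππ' b hb2] at hl₁
    obtain ⟨c, hc1, hc2, l', hl', hl'D⟩ := hdense b hb1 hb2 l₁ hl₁
    refine ⟨c, hc1, hc2, l', ?_, hl'D⟩
    rw [hππ' c hc2]
    exact hl'

variable [WellFoundedLT W]

open Classical in
/-- One step of the recursion. -/
noncomputable def stepF (Dg : W → Set (W × List ℕ)) (δ : W) (prev : ∀ a, a < δ → W → ℕ → ℕ) :
    W → ℕ → ℕ :=
  fun b n =>
    if b = δ then n
    else if h : ∃ ρ, GoodExt δ (fun a b n => if ha : a < δ then prev a ha b n else 0) (Dg δ) ρ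
      then Classical.choose h b n
      else 0

/-- The system of projections, by recursion. -/
noncomputable def sysF (Dg : W → Set (W × List ℕ)) : W → W → ℕ → ℕ :=
  (wellFounded_lt (α := W)).fix (stepF Dg)

lemma sysF_eq (Dg : W → Set (W × List ℕ)) (δ : W) :
    sysF Dg δ = stepF Dg δ (fun a _ => sysF Dg a) :=
  WellFounded.fix_eq _ _ _

lemma sysF_self (Dg : W → Set (W × List ℕ)) (δ : W) (n : ℕ) : sysF Dg δ δ n = n := by
  rw [sysF_eq]
  unfold stepF
  rw [if_pos rfl]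

lemma sysF_props (Dg : W → Set (W × List ℕ)) (hc : ∀ a : W, (Set.Iio a).Countable) (δ : W) :
    Below δ (sysF Dg) ∧ GoodExt δ (sysF Dg) (Dg δ) (sysF Dg δ) := by
  induction δ using WellFoundedLT.induction with
  | ind δ ih =>
    have hB : Below δ (sysF Dg) := by
      refine ⟨fun a _ n => sysF_self Dg a n, ?_, ?_⟩
      · intro a b c hcb hba ha n
        rcases hba.eq_or_lt with rfl | hlt
        · rw [sysF_self]
        · exact (ih a ha).2.comp b c hcb hlt n
      · intro a b hb ha m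
        exact (ih a ha).2.inf b hb m
    refine ⟨hB, ?_⟩
    have hex : ∃ ρ, GoodExt δ (fun a b n => if ha : a < δ then sysF Dg a b n else 0) (Dg δ) ρ := by
      obtain ⟨ρ, hρ⟩ := exists_ext_any hB (hc δ) (Dg δ)
      refine ⟨ρ, hρ.congr fun a ha => ?_⟩
      funext b n
      simp [ha]
    have h1 := Classical.choose_spec hex
    have h2 : GoodExt δ (sysF Dg) (Dg δ) (Classical.choose hex) := by
      refine h1.congr fun a ha => ?_
      funext b n
      simp [ha]
    -- the chosen level agrees with the recursion below δ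
    have h3 : ∀ b, b < δ → sysF Dg δ b = Classical.choose hex b := by
      intro b hb
      funext n
      rw [sysF_eq]
      unfold stepF
      rw [if_neg hb.ne, dif_pos hex]
    refine ⟨?_, ?_, ?_, ?_⟩
    · intro b c hcb hb n
      rw [h3 b hb, h3 c (lt_of_le_of_lt hcb hb)]
      exact h2.comp b c hcb hb n
    · intro b hb m
      rw [h3 b hb]
      exact h2.inf b hb m
    · intro hlim n n' hnn'
      obtain ⟨b, hb, hb2⟩ := h2.sep hlim n n' hnn'
      exact ⟨b, hb, by rw [h3 b hb]; exact hb2⟩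
    · intro a₀ ha₀ l hl hdense
      rw [h3 a₀ ha₀] at hdense
      obtain ⟨c, hc1, hc2, hc3⟩ := h2.sealing a₀ ha₀ l hl hdense
      exact ⟨c, hc1, hc2, by rw [h3 c hc2]; exact hc3⟩

/-- The tree. -/
noncomputable def treeOf (Dg : W → Set (W × List ℕ)) (hc : ∀ a : W, (Set.Iio a).Countable) :
    TreeSys W where
  π := sysF Dg
  pi_self := sysF_self Dg
  pi_comp := by
    intro a b c hcb hba n
    rcases hba.eq_or_lt with rfl | hlt
    · rw [sysF_self]
    · exact (sysF_props Dg hc a).2.comp b c hcb hlt n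
  pi_inf := fun a b hb m => (sysF_props Dg hc a).2.inf b hb m
  pi_sep := fun a ha n n' hnn' => (sysF_props Dg hc a).2.sep ha n n' hnn'

/-- A diamond sequence yields a free tree. -/
theorem exists_free [SuccOrder W] [NoMaxOrder W]
    (hb : ∀ s : Set W, s.Countable → BddAbove s) (hc : ∀ a : W, (Set.Iio a).Countable)
    (e : W × List ℕ → W) (he : Function.Injective e) (S : W → Set W)
    (hS : ∀ A : Set W, IsStationary {α : W | A ∩ Set.Iio α = S α ∩ Set.Iio α}) :
    ∃ T : TreeSys W, T.Free := by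
  classical
  refine ⟨treeOf (fun δ => {p | p.1 < δ ∧ e p ∈ S δ}) hc, ?_⟩
  set Dg : W → Set (W × List ℕ) := fun δ => {p | p.1 < δ ∧ e p ∈ S δ} with hDg
  intro a₀ l₀ hl₀ D hD
  -- the dense set extended to a total choice function
  have hD' : ∀ (b : W) (l : List ℕ), ∃ c, b ≤ c ∧ (a₀ ≤ b → l.map (sysF Dg b a₀) = l₀ →
      ∃ l' : List ℕ, l'.map (sysF Dg c b) = l ∧ (c, l') ∈ D) := by
    intro b l
    by_cases h : a₀ ≤ b ∧ l.map (sysF Dg b a₀) = l₀
    · obtain ⟨c, hc1, l', hl'1, hl'2⟩ := hD b h.1 l h.2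
      exact ⟨c, hc1, fun _ _ => ⟨l', hl'1, hl'2⟩⟩
    · exact ⟨b, le_rfl, fun h1 h2 => absurd ⟨h1, h2⟩ h⟩
  choose ch hch1 hch2 using hD'
  have hh : ∀ a : W, ∃ x : W, ∀ l : List ℕ, e (a, l) ≤ x ∧ ch a l ≤ x := by
    intro a
    have h1 : ((Set.range fun l : List ℕ => e (a, l)) ∪
        (Set.range fun l : List ℕ => ch a l)).Countable :=
      (Set.countable_range _).union (Set.countable_range _)
    obtain ⟨x, hx⟩ := hb _ h1
    exact ⟨x, fun l => ⟨hx (Or.inl ⟨l, rfl⟩), hx (Or.inr ⟨l, rfl⟩)⟩⟩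
  choose h hh using hh
  -- the club
  let C : Set W := {δ | a₀ < δ ∧ ∀ a, a < δ → h a < δ}
  have hC : IsClub C := by
    refine ⟨?_, ?_⟩
    · intro d hd hne _ x hx
      refine ⟨?_, ?_⟩
      · obtain ⟨y, hy⟩ := hne
        exact (hd hy).1.trans_le (hx.1 hy)
      · intro a ha
        obtain ⟨y, hy, hay⟩ : ∃ y ∈ d, a < y := by
          by_contra hcon
          push Not at hcon
          exact absurd ha (not_lt.2 (hx.2 hcon))
        exact ((hd hy).2 a hay).trans_le (hx.1 hy)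
    · intro a₁
      obtain ⟨δ, hδ1, -, hδ2⟩ := exists_closed_limit hb hc h (max a₀ a₁)
      exact ⟨δ, ⟨(le_max_left _ _).trans_lt hδ1, hδ2⟩, ((le_max_right _ _).trans_lt hδ1).le⟩
  obtain ⟨δ, hδS, hδC⟩ := hS (e '' D) hC
  have hδS' : (e '' D) ∩ Set.Iio δ = S δ ∩ Set.Iio δ := hδS
  -- the guessed set
  have hguess : ∀ (c : W) (l : List ℕ), c < δ → ((c, l) ∈ D ↔ (c, l) ∈ Dg δ) := by
    intro c l hcδ
    have hlt : e (c, l) < δ := lt_of_le_of_lt (hh c l).1 (hδC.2 c hcδ)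
    constructor
    · intro h1
      have h2 : e (c, l) ∈ (e '' D) ∩ Set.Iio δ := ⟨⟨_, h1, rfl⟩, hlt⟩
      rw [hδS'] at h2
      exact ⟨hcδ, h2.1⟩
    · intro h1
      have h2 : e (c, l) ∈ S δ ∩ Set.Iio δ := ⟨h1.2, hlt⟩
      rw [← hδS'] at h2
      obtain ⟨p, hp, hpe⟩ := h2.1
      rw [← he hpe]
      exact hp
  refine ⟨δ, hδC.1.le, ?_⟩
  intro l hl
  have hl' : l.map (sysF Dg δ a₀) = l₀ := hl
  have hnd : l.Nodup := by
    rw [← hl'] at hl₀
    exact List.Nodup.of_map _ hl₀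
  obtain ⟨c, hc1, hc2, hc3⟩ := (sysF_props Dg hc δ).2.sealing a₀ hδC.1 l hnd (by
    intro b hb1 hb2 l₁ hl₁
    rw [hl'] at hl₁
    obtain ⟨l', hl'1, hl'2⟩ := hch2 b l₁ hb1 hl₁
    have hchδ : ch b l₁ < δ := lt_of_le_of_lt (hh b l₁).2 (hδC.2 b hb2)
    exact ⟨ch b l₁, hch1 b l₁, hchδ, l', hl'1, (hguess _ _ hchδ).1 hl'2⟩)
  exact ⟨c, hc1, hc2.le, (hguess _ _ hc2).2 hc3⟩

end Pool.Agent.Lib.MP_6bb66b_gt
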