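import Pool.Agent.Lib.MP_6bb66b_gt.TreeSpace

/-!
If a tree is free then the space of quasicontinuous functions on its space of nodes is
Frechet-Urysohn.
-/

set_option autoImplicit false
set_option linter.unusedSectionVars false

namespace Pool.Agent.Lib.MP_6bb66b_gt

open Topology Set Order

variable {W : Type} [LinearOrder W] [WellFoundedLT W] [SuccOrder W] [NoMaxOrder W]

/-- A closing-off argument: below a suitable limit all values of a function are bounded. -/
lemma exists_closed_limit (hb : ∀ s : Set W, s.Countable → BddAbove s)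
    (hc : ∀ a : W, (Set.Iio a).Countable) (h : W → W) (a₀ : W) :
    ∃ δ, a₀ < δ ∧ IsSuccLimit δ ∧ ∀ a, a < δ → h a < δ := by
  have h1 : ∀ a, ∃ c, ∀ b ≤ a, h b ≤ c := by
    intro a
    have h2 : (h '' (Set.Iic a)).Countable := by
      apply Set.Countable.image
      have : Set.Iic a = Set.Iio (succ a) := by ext x; simp
      rw [this]
      exact hc _
    obtain ⟨c, hc⟩ := hb _ h2
    exact ⟨c, fun b hb => hc ⟨b, hb, rfl⟩⟩
  choose H hH using h1
  let s : ℕ → W := fun n => Nat.rec a₀ (fun _ x => max (succ x) (succ (H x))) n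
  have hs : ∀ n, s (n + 1) = max (succ (s n)) (succ (H (s n))) := fun n => rfl
  have hlt : ∀ n, s n < s (n + 1) := fun n => by
    rw [hs]; exact (lt_succ _).trans_le (le_max_left _ _)
  have hmono : StrictMono s := strictMono_nat_of_lt_succ hlt
  have hbdd : (upperBounds (Set.range s)).Nonempty := hb _ (Set.countable_range s)
  let δ : W := WellFounded.min (wellFounded_lt (α := W)) _ hbdd
  have hδ : δ ∈ upperBounds (Set.range s) := WellFounded.min_mem _ _ _
  have hmin : ∀ x, x < δ → ∃ n, x < s n := by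
    intro x hx
    by_contra hcon
    push Not at hcon
    exact WellFounded.not_lt_min (wellFounded_lt (α := W)) _ (x := x)
      (by rintro _ ⟨n, rfl⟩; exact hcon n) hx
  have hsδ : ∀ n, s n < δ := fun n => (hlt n).trans_le (hδ ⟨n + 1, rfl⟩)
  refine ⟨δ, hsδ 0, ?_, ?_⟩
  · refine ⟨?_, ?_⟩
    · intro hm
      exact absurd (hsδ 0) (not_lt.2 (hm (hsδ 0).le))
    · intro x hx
      obtain ⟨n, hn⟩ := hmin x hx.lt
      have h3 := hx.succ_eq
      have h4 : succ x ≤ s n := succ_le_of_lt hn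
      rw [h3] at h4
      exact absurd (hsδ n) (not_lt.2 h4)
  · intro a ha
    obtain ⟨n, hn⟩ := hmin a ha
    refine lt_of_le_of_lt (hH (s n) a hn.le) ?_
    have h5 : H (s n) < s (n + 1) := by
      rw [hs]; exact (lt_succ _).trans_le (le_max_right _ _)
    exact h5.trans (hsδ (n + 1))

namespace TreeSys

variable (T : TreeSys W)

/-- Level-wise separation of finitely many nodes of a limit level. -/
lemma exists_sep {δ : W} (hδ : IsSuccLimit δ) (k : ℕ) :
    ∃ b, b < δ ∧ ((List.range k).map (T.π δ b)).Nodup := by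
  have h1 : ∀ k, ∃ b, b < δ ∧ ∀ i < k, ∀ j < k, i ≠ j → T.π δ b i ≠ T.π δ b j := by
    intro k
    induction k with
    | zero =>
      obtain ⟨b, hb, -⟩ := T.pi_sep δ hδ 0 1 (by norm_num)
      exact ⟨b, hb, fun i hi => absurd hi (Nat.not_lt_zero i)⟩
    | succ k ih =>
      obtain ⟨b, hb, hb2⟩ := ih
      have h2 : ∀ m, ∃ c, c < δ ∧ ∀ i < m, i ≠ k → T.π δ c i ≠ T.π δ c k := by
        intro m
        induction m with
        | zero => exact ⟨b, hb, fun i hi => absurd hi (Nat.not_lt_zero i)⟩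
        | succ m ihm =>
          obtain ⟨c, hc, hc2⟩ := ihm
          by_cases hmk : m = k
          · refine ⟨c, hc, fun i hi hik => ?_⟩
            exact hc2 i (by omega) hik
          · obtain ⟨c', hc', hc'2⟩ := T.pi_sep δ hδ m k hmk
            refine ⟨max c c', max_lt hc hc', fun i hi hik heq => ?_⟩
            rcases Nat.lt_succ_iff_lt_or_eq.1 hi with h | h
            · apply hc2 i h hik
              rw [← T.pi_comp δ (max c c') c (le_max_left _ _) (max_lt hc hc').le, heq,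
                T.pi_comp δ (max c c') c (le_max_left _ _) (max_lt hc hc').le]
            · apply hc'2
              rw [← T.pi_comp δ (max c c') c' (le_max_right _ _) (max_lt hc hc').le, ← h, heq,
                T.pi_comp δ (max c c') c' (le_max_right _ _) (max_lt hc hc').le]
      obtain ⟨c, hc, hc2⟩ := h2 k
      refine ⟨max b c, max_lt hb hc, ?_⟩
      have key : ∀ i < k + 1, ∀ j < k + 1, i < j → T.π δ (max b c) i ≠ T.π δ (max b c) j := by
        intro i hi j hj hij heq
        rcases Nat.lt_succ_iff_lt_or_eq.1 hj with h | h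
        · apply hb2 i (by omega) j h hij.ne
          rw [← T.pi_comp δ (max b c) b (le_max_left _ _) (max_lt hb hc).le, heq,
            T.pi_comp δ (max b c) b (le_max_left _ _) (max_lt hb hc).le]
        · apply hc2 i (by omega) (by omega)
          rw [← T.pi_comp δ (max b c) c (le_max_right _ _) (max_lt hb hc).le, heq, h,
            T.pi_comp δ (max b c) c (le_max_right _ _) (max_lt hb hc).le]
      intro i hi j hj hij
      rcases lt_or_gt_of_ne hij with h | h
      · exact key i hi j hj h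
      · exact (key j hj i hi h).symm
  obtain ⟨b, hb, hb2⟩ := h1 k
  refine ⟨b, hb, ?_⟩
  refine List.Nodup.map_on ?_ List.nodup_range
  intro x hx y hy hxy
  by_contra hne
  exact hb2 x (List.mem_range.1 hx) y (List.mem_range.1 hy) hne hxy

/-- The main density argument. -/
lemma dense_approx (A : Set (Qp T.Node)) (g : Qp T.Node) (hg : g ∈ closure A)
    (F : Finset T.Node) (ε : ℝ) (hε : 0 < ε) (b : W) (l : List ℕ) :
    ∃ c, b ≤ c ∧ ∃ l' : List ℕ, l'.map (T.π c b) = l ∧
      ∃ f ∈ A, (∀ x ∈ F, |f.1 x - g.1 x| < ε) ∧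
        ∀ m ∈ l', ∀ x ∈ T.cone ((c, m) : W × ℕ), |f.1 x - g.1 x| < ε := by
  classical
  -- open sets where g is nearly constant
  have h1 : ∀ m : ℕ, ∃ G : Set T.Node, IsOpen G ∧ G.Nonempty ∧ G ⊆ T.cone ((b, m) : W × ℕ) ∧
      ∀ y ∈ G, g.1 y ∈ Metric.ball (g.1 ((b, m) : W × ℕ)) (ε / 6) := fun m =>
    g.2 ((b, m) : W × ℕ) _ (T.isOpen_cone _) (T.mem_cone_self _) _ Metric.isOpen_ball
      (Metric.mem_ball_self (by positivity))
  choose G hG1 hG2 hG3 hG4 using h1
  choose y hy using hG2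
  -- approximate on F and on the chosen points
  have h2 : ∃ f ∈ A, ∀ x ∈ F ∪ (l.map y).toFinset, |f.1 x - g.1 x| < ε / 6 := by
    rw [mem_closure_iff_nhds] at hg
    have h3 : {f : Qp T.Node | ∀ x ∈ F ∪ (l.map y).toFinset, |f.1 x - g.1 x| < ε / 6} ∈ 𝓝 g := by
      have h4 : ∀ x ∈ F ∪ (l.map y).toFinset, ∀ᶠ f : Qp T.Node in 𝓝 g,
          |f.1 x - g.1 x| < ε / 6 := by
        intro x _
        have hcont : Continuous (fun f : Qp T.Node => |f.1 x - g.1 x|) := by
          have : Continuous (fun f : Qp T.Node => f.1 x) :=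
            (continuous_apply x).comp continuous_subtype_val
          exact (this.sub continuous_const).abs
        have h5 : (fun f : Qp T.Node => |f.1 x - g.1 x|) g < ε / 6 := by
          simp; positivity
        exact hcont.continuousAt.eventually (gt_mem_nhds h5)
      have h6 := (Filter.eventually_all_finset (F ∪ (l.map y).toFinset)).2 h4
      exact h6
    obtain ⟨f, hf1, hf2⟩ := hg _ h3
    exact ⟨f, hf2, hf1⟩
  obtain ⟨f, hfA, hf⟩ := h2
  -- for each entry a cone where f is close to g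
  have h3 : ∀ m ∈ l, ∃ s : T.Node, T.cone s ⊆ T.cone ((b, m) : W × ℕ) ∧
      ∀ x ∈ T.cone s, |f.1 x - g.1 x| < ε := by
    intro m hm
    have hfy : |f.1 (y m) - g.1 (y m)| < ε / 6 := by
      apply hf
      rw [Finset.mem_union]
      right
      rw [List.mem_toFinset]
      exact List.mem_map_of_mem hm
    obtain ⟨O, hO1, hO2, hO3, hO4⟩ := f.2 (y m) (G m) (hG1 m) (hy m) _ Metric.isOpen_ball
      (Metric.mem_ball_self (x := f.1 (y m)) (show (0 : ℝ) < ε / 6 by positivity))
    obtain ⟨s, hs⟩ := T.exists_cone_sub hO1 hO2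
    refine ⟨s, (hs.trans hO3).trans (hG3 m), ?_⟩
    intro x hx
    have e1 := hO4 x (hs hx)
    have e2 := hG4 m x (hO3 (hs hx))
    have e3 := hG4 m (y m) (hy m)
    rw [Metric.mem_ball, Real.dist_eq, abs_lt] at e1 e2 e3
    rw [abs_lt] at hfy ⊢
    constructor <;> linarith [e1.1, e1.2, e2.1, e2.2, e3.1, e3.2, hfy.1, hfy.2]
  -- a common level
  have h4 : ∀ l₁ : List ℕ, (∀ m ∈ l₁, m ∈ l) → ∃ c, b ≤ c ∧ ∀ c', c ≤ c' →
      ∃ l' : List ℕ, l'.map (T.π c' b) = l₁ ∧
        ∀ m ∈ l', ∀ x ∈ T.cone ((c', m) : W × ℕ), |f.1 x - g.1 x| < ε := by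
    intro l₁
    induction l₁ with
    | nil => exact fun _ => ⟨b, le_rfl, fun c' _ => ⟨[], rfl, by simp⟩⟩
    | cons m l₁ ih =>
      intro hsub
      obtain ⟨c, hbc, hc⟩ := ih (fun m' hm' => hsub m' (List.mem_cons_of_mem _ hm'))
      obtain ⟨s, hs1, hs2⟩ := h3 m (hsub m List.mem_cons_self)
      refine ⟨max c s.1, hbc.trans (le_max_left _ _), fun c' hc' => ?_⟩
      obtain ⟨l', hl'1, hl'2⟩ := hc c' ((le_max_left _ _).trans hc')
      have hsc' : s.1 ≤ c' := (le_max_right _ _).trans hc'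
      obtain ⟨n, hn⟩ := T.exists_ext hsc' s.2
      have hmem : ((c', n) : W × ℕ) ∈ T.cone s := ⟨hsc', hn⟩
      refine ⟨n :: l', ?_, ?_⟩
      · rw [List.map_cons, hl'1]
        congr 1
        exact (hs1 hmem).2
      · intro m' hm' x hx
        rcases List.mem_cons.1 hm' with h | h
        · subst h
          exact hs2 x (T.cone_trans hmem hx)
        · exact hl'2 m' h x hx
  obtain ⟨c, hbc, hc⟩ := h4 l (fun m hm => hm)
  obtain ⟨l', hl'1, hl'2⟩ := hc c le_rfl
  exact ⟨c, hbc, l', hl'1, f, hfA,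
    fun x hx => (hf x (Finset.mem_union_left _ hx)).trans (by linarith), hl'2⟩

/-- The Frechet-Urysohn property. -/
theorem frechetUrysohn (hb : ∀ s : Set W, s.Countable → BddAbove s)
    (hc : ∀ a : W, (Set.Iio a).Countable) [Nonempty W] (hT : T.Free) :
    FrechetUrysohnSpace (Qp T.Node) := by
  classical
  refine ⟨fun A g hg => ?_⟩
  -- the bounding function
  have hfree : ∀ (F : Finset T.Node) (n : ℕ) (a₀ : W) (l₀ : List ℕ), ∃ b, a₀ ≤ b ∧
      (l₀.Nodup → ∀ l : List ℕ, l.map (T.π b a₀) = l₀ → ∃ f ∈ A,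
        (∀ x ∈ F, |f.1 x - g.1 x| < 1 / ((n : ℝ) + 1)) ∧
        ∀ m ∈ l, ∀ x ∈ T.cone ((b, m) : W × ℕ), |f.1 x - g.1 x| < 1 / ((n : ℝ) + 1)) := by
    intro F n a₀ l₀
    by_cases hl₀ : l₀.Nodup
    · let D : Set (W × List ℕ) := {p | ∃ f ∈ A, (∀ x ∈ F, |f.1 x - g.1 x| < 1 / ((n : ℝ) + 1)) ∧
        ∀ m ∈ p.2, ∀ x ∈ T.cone ((p.1, m) : W × ℕ), |f.1 x - g.1 x| < 1 / ((n : ℝ) + 1)}
      obtain ⟨b, hb1, hb2⟩ := hT a₀ l₀ hl₀ D (by
        intro b _ l _
        obtain ⟨c, hbc, l', hl', f, hf⟩ := T.dense_approx A g hg F (1 / ((n : ℝ) + 1))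
          (by positivity) b l
        exact ⟨c, hbc, l', hl', f, hf⟩)
      refine ⟨b, hb1, fun _ l hl => ?_⟩
      obtain ⟨c, hc1, hc2, f, hfA, hf1, hf2⟩ := hb2 l hl
      refine ⟨f, hfA, hf1, ?_⟩
      intro m hm x hx
      refine hf2 (T.π b c m) (List.mem_map_of_mem hm) x ?_
      exact T.cone_trans (s := ((b, m) : W × ℕ)) ⟨hc2, rfl⟩ hx
    · exact ⟨a₀, le_rfl, fun h => absurd h hl₀⟩
  choose β hβ1 hβ2 using hfree
  -- a bounding function of one variable
  have hh : ∀ a : W, ∃ c : W, ∀ F : Finset T.Node, (∀ x ∈ F, x.1 ≤ a) → ∀ (n : ℕ) (a₀ : W),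
      a₀ ≤ a → ∀ l₀ : List ℕ, β F n a₀ l₀ ≤ c := by
    intro a
    have hIic : (Set.Iic a).Countable := by
      have : Set.Iic a = Set.Iio (succ a) := by ext x; simp
      rw [this]; exact hc _
    have hX : ({x : T.Node | x.1 ≤ a}).Countable := by
      have : ({x : T.Node | x.1 ≤ a}) = (Set.Iic a) ×ˢ (Set.univ : Set ℕ) := by
        ext x; exact ⟨fun h => ⟨h, trivial⟩, fun h => h.1⟩
      rw [this]
      exact hIic.prod Set.countable_univ
    have hFin : ({F : Finset T.Node | ∀ x ∈ F, x.1 ≤ a}).Countable := by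
      have h1 := Set.countable_ofPred_finite_subset hX
      have h2 : Set.MapsTo (fun F : Finset T.Node => (F : Set T.Node))
          {F : Finset T.Node | ∀ x ∈ F, x.1 ≤ a}
          {t : Set T.Node | t.Finite ∧ t ⊆ {x : T.Node | x.1 ≤ a}} :=
        fun F hF => ⟨F.finite_toSet, hF⟩
      exact Set.MapsTo.countable_of_injOn h2 Finset.coe_injective.injOn h1
    have hall : (⋃ F ∈ {F : Finset T.Node | ∀ x ∈ F, x.1 ≤ a}, ⋃ n : ℕ, ⋃ a₀ ∈ Set.Iic a,
        ⋃ l₀ : List ℕ, {β F n a₀ l₀}).Countable := by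
      refine hFin.biUnion fun F _ => Set.countable_iUnion fun n => hIic.biUnion fun a₀ _ =>
        Set.countable_iUnion fun l₀ => Set.countable_singleton _
    obtain ⟨c, hc⟩ := hb _ hall
    refine ⟨c, fun F hF n a₀ ha₀ l₀ => hc ?_⟩
    simp only [Set.mem_iUnion]
    exact ⟨F, hF, n, a₀, ha₀, l₀, rfl⟩
  choose h hh using hh
  obtain ⟨δ, hδ0, hδ, hδh⟩ := exists_closed_limit hb hc h (Classical.arbitrary W)
  -- enumeration of the nodes below δ
  have hcount : ({x : T.Node | x.1 < δ}).Countable := by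
    have : ({x : T.Node | x.1 < δ}) = (Set.Iio δ) ×ˢ (Set.univ : Set ℕ) := by
      ext x; exact ⟨fun h => ⟨h, trivial⟩, fun h => h.1⟩
    rw [this]
    exact (hc δ).prod Set.countable_univ
  obtain ⟨e, he⟩ := hcount.exists_eq_range ⟨((Classical.arbitrary W, 0) : W × ℕ), hδ0⟩
  -- the approximating sequence
  have hseq : ∀ n : ℕ, ∃ f ∈ A, (∀ i ≤ n, |f.1 (e i) - g.1 (e i)| < 1 / ((n : ℝ) + 1)) ∧
      ∀ i ≤ n, ∀ x ∈ T.cone ((δ, i) : W × ℕ), |f.1 x - g.1 x| < 1 / ((n : ℝ) + 1) := by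
    intro n
    let F : Finset T.Node := (Finset.range (n + 1)).image e
    have hFδ : ∀ x ∈ F, x.1 < δ := by
      intro x hx
      obtain ⟨i, -, rfl⟩ := Finset.mem_image.1 hx
      have : e i ∈ Set.range e := ⟨i, rfl⟩
      rw [← he] at this
      exact this
    obtain ⟨a₀, ha₀, hnd⟩ := T.exists_sep hδ (n + 1)
    -- a common bound below δ
    obtain ⟨a, haδ, ha₀a, hFa⟩ : ∃ a, a < δ ∧ a₀ ≤ a ∧ ∀ x ∈ F, x.1 ≤ a := by
      let S : Finset W := insert a₀ (F.image Prod.fst)
      have hS : S.Nonempty := Finset.insert_nonempty _ _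
      refine ⟨S.max' hS, ?_, ?_, ?_⟩
      · rw [Finset.max'_lt_iff]
        intro x hx
        rcases Finset.mem_insert.1 hx with h | h
        · rw [h]; exact ha₀
        · obtain ⟨z, hz, rfl⟩ := Finset.mem_image.1 h
          exact hFδ z hz
      · exact Finset.le_max' _ _ (Finset.mem_insert_self _ _)
      · intro x hx
        exact Finset.le_max' _ _ (Finset.mem_insert_of_mem (Finset.mem_image_of_mem _ hx))
    have hβδ : β F n a₀ ((List.range (n + 1)).map (T.π δ a₀)) < δ :=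
      lt_of_le_of_lt (hh a F hFa n a₀ ha₀a _) (hδh a haδ)
    set b := β F n a₀ ((List.range (n + 1)).map (T.π δ a₀)) with hbdef
    obtain ⟨f, hfA, hf1, hf2⟩ := hβ2 F n a₀ ((List.range (n + 1)).map (T.π δ a₀)) hnd
      ((List.range (n + 1)).map (T.π δ b)) (by
        rw [List.map_map]
        apply List.map_congr_left
        intro i _
        exact T.pi_comp δ b a₀ (hβ1 _ _ _ _) hβδ.le i)
    refine ⟨f, hfA, ?_, ?_⟩
    · intro i hi
      apply hf1
      exact Finset.mem_image_of_mem _ (Finset.mem_range.2 (by omega))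
    · intro i hi x hx
      refine hf2 (T.π δ b i) (List.mem_map_of_mem (List.mem_range.2 (by omega))) x ?_
      exact T.cone_trans (s := ((δ, i) : W × ℕ)) ⟨hβδ.le, rfl⟩ hx
  choose f hfA hf1 hf2 using hseq
  refine ⟨f, hfA, ?_⟩
  rw [tendsto_subtype_rng, tendsto_pi_nhds]
  intro x
  -- eventually close
  have hev : ∃ N : ℕ, ∀ n ≥ N, |(f n).1 x - g.1 x| < 1 / ((n : ℝ) + 1) := by
    rcases lt_or_ge x.1 δ with hx | hx
    · have : x ∈ {x : T.Node | x.1 < δ} := hx
      rw [he] at this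
      obtain ⟨i, rfl⟩ := this
      exact ⟨i, fun n hn => hf1 n i hn⟩
    · refine ⟨T.π x.1 δ x.2, fun n hn => hf2 n _ hn x ⟨hx, rfl⟩⟩
  obtain ⟨N, hN⟩ := hev
  rw [tendsto_iff_dist_tendsto_zero]
  refine squeeze_zero' (g := fun n : ℕ => 1 / ((n : ℝ) + 1)) (Filter.Eventually.of_forall fun n =>
    dist_nonneg) ?_ tendsto_one_div_add_atTop_nhds_zero_nat
  filter_upwards [Filter.eventually_ge_atTop N] with n hn
  rw [Real.dist_eq]
  exact (hN n hn).le

end TreeSys

end Pool.Agent.Lib.MP_6bb66b_gt
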