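import Pool.Agent.Lib.MP_6bb66b_gt.Defs

/-!
Trees of height `ω₁` with countable levels, coded by projection maps, and the topology on the set
of nodes generated by the (clopen) cones.
-/

set_option autoImplicit false
set_option linter.unusedSectionVars false

namespace Pool.Agent.Lib.MP_6bb66b_gt

open Topology Set Order

/-- A tree with levels indexed by a linear order `W`, every level being a copy of `ℕ`;
`π a b n` (for `b ≤ a`) is the node of level `b` below the node `n` of level `a`. -/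
structure TreeSys (W : Type) [LinearOrder W] where
  π : W → W → ℕ → ℕ
  pi_self : ∀ a n, π a a n = n
  pi_comp : ∀ a b c, c ≤ b → b ≤ a → ∀ n, π b c (π a b n) = π a c n
  pi_inf : ∀ a b, b < a → ∀ m, {n | π a b n = m}.Infinite
  pi_sep : ∀ a, IsSuccLimit a → ∀ n n', n ≠ n' → ∃ b, b < a ∧ π a b n ≠ π a b n'

variable {W : Type} [LinearOrder W]

namespace TreeSys

variable (T : TreeSys W)

/-- Freeness (every finite product of distinct cones is Suslin), in terms of dense sets. -/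
def Free : Prop :=
  ∀ (a₀ : W) (l₀ : List ℕ), l₀.Nodup → ∀ D : Set (W × List ℕ),
    (∀ b, a₀ ≤ b → ∀ l : List ℕ, l.map (T.π b a₀) = l₀ →
      ∃ c, b ≤ c ∧ ∃ l' : List ℕ, l'.map (T.π c b) = l ∧ (c, l') ∈ D) →
    ∃ b, a₀ ≤ b ∧ ∀ l : List ℕ, l.map (T.π b a₀) = l₀ →
      ∃ c, a₀ ≤ c ∧ c ≤ b ∧ (c, l.map (T.π b c)) ∈ D

/-- The set of nodes, as a topological space. -/
def Node (_ : TreeSys W) : Type := W × ℕ

/-- The cone above a node. -/
def cone (t : T.Node) : Set T.Node := {s | t.1 ≤ s.1 ∧ T.π s.1 t.1 s.2 = t.2}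

variable [SuccOrder W]

/-- The basic neighbourhoods of a node. -/
def nb (k : ℕ) (t : T.Node) : Set T.Node :=
  {s | s = t ∨ (t.1 < s.1 ∧ T.π s.1 t.1 s.2 = t.2 ∧ k ≤ T.π s.1 (succ t.1) s.2)}

lemma mem_nb_self (k : ℕ) (t : T.Node) : t ∈ T.nb k t := Or.inl rfl

lemma nb_anti {k k' : ℕ} (h : k ≤ k') (t : T.Node) : T.nb k' t ⊆ T.nb k t := by
  rintro s (hs | ⟨h1, h2, h3⟩)
  · exact Or.inl hs
  · exact Or.inr ⟨h1, h2, h.trans h3⟩

lemma mem_cone_self (t : T.Node) : t ∈ T.cone t := ⟨le_rfl, T.pi_self _ _⟩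

lemma cone_trans {s t u : T.Node} (h1 : s ∈ T.cone t) (h2 : u ∈ T.cone s) : u ∈ T.cone t := by
  refine ⟨h1.1.trans h2.1, ?_⟩
  rw [← T.pi_comp u.1 s.1 t.1 h1.1 h2.1, h2.2, h1.2]

lemma nb_zero (t : T.Node) : T.nb 0 t = T.cone t := by
  ext s
  constructor
  · rintro (rfl | ⟨h1, h2, -⟩)
    · exact T.mem_cone_self _
    · exact ⟨h1.le, h2⟩
  · rintro ⟨h1, h2⟩
    rcases h1.eq_or_lt with h | h
    · left
      apply Prod.ext
      · exact h.symm
      · rw [← h2, h, T.pi_self]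
    · exact Or.inr ⟨h, h2, Nat.zero_le _⟩

lemma nb_sub_cone (k : ℕ) (t : T.Node) : T.nb k t ⊆ T.cone t := by
  rw [← nb_zero]; exact T.nb_anti (Nat.zero_le _) t

variable [NoMaxOrder W]

lemma cone_sub_nb {k : ℕ} {s t : T.Node} (hs : s ∈ T.nb k t) (hst : s ≠ t) :
    T.cone s ⊆ T.nb k t := by
  rcases hs with h | ⟨h1, h2, h3⟩
  · exact absurd h hst
  · intro u hu
    refine Or.inr ⟨h1.trans_le hu.1, ?_, ?_⟩
    · rw [← T.pi_comp u.1 s.1 t.1 h1.le hu.1, hu.2, h2]
    · rw [← T.pi_comp u.1 s.1 (succ t.1) (succ_le_of_lt h1) hu.1, hu.2]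
      exact h3

instance : TopologicalSpace T.Node where
  IsOpen U := ∀ t ∈ U, ∃ k, T.nb k t ⊆ U
  isOpen_univ := fun t _ => ⟨0, Set.subset_univ _⟩
  isOpen_inter := by
    intro U V hU hV t ht
    obtain ⟨k, hk⟩ := hU t ht.1
    obtain ⟨k', hk'⟩ := hV t ht.2
    refine ⟨max k k', Set.subset_inter ?_ ?_⟩
    · exact (T.nb_anti (le_max_left _ _) t).trans hk
    · exact (T.nb_anti (le_max_right _ _) t).trans hk'
  isOpen_sUnion := by
    intro S hS t ht
    obtain ⟨U, hU, htU⟩ := ht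
    obtain ⟨k, hk⟩ := hS U hU t htU
    exact ⟨k, hk.trans (Set.subset_sUnion_of_mem hU)⟩

lemma isOpen_def {U : Set T.Node} : IsOpen U ↔ ∀ t ∈ U, ∃ k, T.nb k t ⊆ U := Iff.rfl

lemma isOpen_nb (k : ℕ) (t : T.Node) : IsOpen (T.nb k t) := by
  rw [isOpen_def]
  intro s hs
  by_cases h : s = t
  · subst h; exact ⟨k, le_rfl⟩
  · refine ⟨0, ?_⟩
    rw [nb_zero]
    exact T.cone_sub_nb hs h

lemma isOpen_cone (t : T.Node) : IsOpen (T.cone t) := by
  rw [← nb_zero]; exact T.isOpen_nb 0 t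

/-- A node outside a cone has a neighbourhood missing the cone. -/
lemma exists_nb_disjoint {s t : T.Node} (h : s ∉ T.cone t) :
    ∃ k, Disjoint (T.nb k s) (T.cone t) := by
  refine ⟨T.π t.1 (succ s.1) t.2 + 1, ?_⟩
  rw [Set.disjoint_left]
  rintro u (rfl | ⟨h1, h2, h3⟩) hu
  · exact h hu
  · rcases le_or_gt t.1 s.1 with hts | hts
    · apply h
      refine ⟨hts, ?_⟩
      rw [← h2, T.pi_comp u.1 s.1 t.1 hts h1.le, hu.2]
    · rw [← T.pi_comp u.1 t.1 (succ s.1) (succ_le_of_lt hts) hu.1, hu.2] at h3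
      omega

lemma isClopen_cone (t : T.Node) : IsClopen (T.cone t) := by
  refine ⟨⟨?_⟩, T.isOpen_cone t⟩
  rw [isOpen_def]
  intro s hs
  obtain ⟨k, hk⟩ := T.exists_nb_disjoint hs
  exact ⟨k, Set.disjoint_left.1 hk⟩

lemma isClopen_nb (k : ℕ) (t : T.Node) : IsClopen (T.nb k t) := by
  refine ⟨⟨?_⟩, T.isOpen_nb k t⟩
  rw [isOpen_def]
  intro s hs
  by_cases h : s ∈ T.cone t
  · refine ⟨0, ?_⟩
    rw [nb_zero]
    intro u hu hu'
    have hst : s ≠ t := by
      rintro rfl; exact hs (T.mem_nb_self _ _)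
    rcases h.1.eq_or_lt with h1 | h1
    · apply hst
      apply Prod.ext h1.symm
      rw [← h.2, h1, T.pi_self]
    · rcases hu' with rfl | ⟨h2, h3, h4⟩
      · exact absurd (h1.trans_le hu.1) (lt_irrefl _)
      · apply hs
        refine Or.inr ⟨h1, h.2, ?_⟩
        rw [← hu.2, T.pi_comp u.1 s.1 (succ t.1) (succ_le_of_lt h1) hu.1]
        exact h4
  · obtain ⟨k', hk'⟩ := T.exists_nb_disjoint h
    refine ⟨k', ?_⟩
    intro u hu hu'
    exact Set.disjoint_left.1 hk' hu (T.nb_sub_cone _ _ hu')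

instance : T2Space T.Node := by
  refine ⟨fun s t hst => ?_⟩
  by_cases h : s ∈ T.cone t
  · have h' : t ∉ T.cone s := by
      intro h'
      apply hst
      have h1 : s.1 = t.1 := le_antisymm h'.1 h.1
      apply Prod.ext h1
      rw [← h.2, h1, T.pi_self]
    exact ⟨T.cone s, (T.cone s)ᶜ, T.isOpen_cone s, (T.isClopen_cone s).1.isOpen_compl,
      T.mem_cone_self s, h', disjoint_compl_right⟩
  · exact ⟨(T.cone t)ᶜ, T.cone t, (T.isClopen_cone t).1.isOpen_compl, T.isOpen_cone t,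
      h, T.mem_cone_self t, disjoint_compl_left⟩

lemma semiRegular : SemiRegular T.Node := by
  apply TopologicalSpace.isTopologicalBasis_of_isOpen_of_nhds
  · intro U hU
    have hU' : interior (closure U) = U := hU
    rw [← hU']
    exact isOpen_interior
  · intro t U htU hU
    obtain ⟨k, hk⟩ := (T.isOpen_def).1 hU t htU
    refine ⟨T.nb k t, ?_, T.mem_nb_self k t, hk⟩
    show interior (closure (T.nb k t)) = T.nb k t
    rw [(T.isClopen_nb k t).1.closure_eq, (T.isClopen_nb k t).2.interior_eq]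

/-- Every node has extensions to all higher levels. -/
lemma exists_ext {a b : W} (h : b ≤ a) (m : ℕ) : ∃ n, T.π a b n = m := by
  rcases h.eq_or_lt with rfl | h
  · exact ⟨m, T.pi_self _ _⟩
  · exact (T.pi_inf a b h m).nonempty

lemma exists_ext_list {a b : W} (h : b ≤ a) (l : List ℕ) : ∃ l' : List ℕ, l'.map (T.π a b) = l := by
  induction l with
  | nil => exact ⟨[], rfl⟩
  | cons m l ih =>
    obtain ⟨l', hl'⟩ := ih
    obtain ⟨n, hn⟩ := T.exists_ext h m
    exact ⟨n :: l', by simp [hn, hl']⟩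

/-- Every nonempty open set contains a cone. -/
lemma exists_cone_sub {U : Set T.Node} (hU : IsOpen U) (hne : U.Nonempty) :
    ∃ s : T.Node, T.cone s ⊆ U := by
  obtain ⟨t, ht⟩ := hne
  obtain ⟨k, hk⟩ := (T.isOpen_def).1 hU t ht
  obtain ⟨i, hi, hik⟩ := (T.pi_inf (succ t.1) t.1 (lt_succ t.1) t.2).exists_gt k
  refine ⟨((succ t.1, i) : W × ℕ), Set.Subset.trans ?_ hk⟩
  apply T.cone_sub_nb
  · refine Or.inr ⟨lt_succ t.1, hi, ?_⟩
    show k ≤ T.π (succ t.1) (succ t.1) i
    rw [T.pi_self]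
    exact hik.le
  · intro h
    have h' : succ t.1 = t.1 := congrArg Prod.fst h
    exact (lt_succ t.1).ne' h'

/-- The space of nodes is open Whyburn. -/
lemma openWhyburn : OpenWhyburn T.Node := by
  intro A hA t ht
  have h1 : ∀ k, ∃ s ∈ A, s ∈ T.nb k t := by
    intro k
    obtain ⟨s, hs1, hs2⟩ := mem_closure_iff.1 ht.1 (T.nb k t) (T.isOpen_nb k t) (T.mem_nb_self k t)
    exact ⟨s, hs2, hs1⟩
  choose s hsA hs using h1
  have hst : ∀ k, s k ≠ t := fun k h => ht.2 (h ▸ hsA k)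
  have h2 : ∀ k, ∃ j, T.nb j (s k) ⊆ A := fun k => (T.isOpen_def).1 hA _ (hsA k)
  choose j hj using h2
  have hcone : ∀ k, T.nb (j k) (s k) ⊆ T.nb k t := fun k =>
    (T.nb_sub_cone _ _).trans (T.cone_sub_nb (hs k) (hst k))
  refine ⟨⋃ k, T.nb (j k) (s k), isOpen_iUnion fun k => T.isOpen_nb _ _, Set.iUnion_subset hj, ?_⟩
  have hBA : (⋃ k, T.nb (j k) (s k)) ⊆ A := Set.iUnion_subset hj
  -- the union with t is closed
  have hcl : IsClosed ((⋃ k, T.nb (j k) (s k)) ∪ {t}) := by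
    refine ⟨?_⟩
    rw [isOpen_def]
    intro u hu
    have hut : u ≠ t := fun h => hu (Or.inr h)
    have huB : ∀ k, u ∉ T.nb (j k) (s k) := fun k h => hu (Or.inl (Set.mem_iUnion.2 ⟨k, h⟩))
    -- a neighbourhood of u meeting only finitely many pieces
    have hfin : ∃ N : ℕ, ∃ V : Set T.Node, IsOpen V ∧ u ∈ V ∧ t ∉ V ∧
        ∀ k, N ≤ k → Disjoint V (T.nb (j k) (s k)) := by
      by_cases h : u ∈ T.cone t
      · have h1 : t.1 < u.1 := by
          rcases h.1.eq_or_lt with h1 | h1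
          · exfalso
            apply hut
            apply Prod.ext h1.symm
            rw [← h.2, h1, T.pi_self]
          · exact h1
        refine ⟨T.π u.1 (succ t.1) u.2 + 1, T.cone u, T.isOpen_cone u, T.mem_cone_self u, ?_, ?_⟩
        · intro h2
          exact absurd (h1.trans_le h2.1) (lt_irrefl _)
        · intro k hk
          rw [Set.disjoint_left]
          intro v hv hv'
          rcases hcone k hv' with rfl | ⟨h2, h3, h4⟩
          · exact absurd (h1.trans_le hv.1) (lt_irrefl _)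
          · rw [← T.pi_comp v.1 u.1 (succ t.1) (succ_le_of_lt h1) hv.1, hv.2] at h4
            omega
      · refine ⟨0, (T.cone t)ᶜ, (T.isClopen_cone t).1.isOpen_compl, h,
          fun h2 => h2 (T.mem_cone_self t), ?_⟩
        intro k _
        rw [Set.disjoint_left]
        intro v hv hv'
        exact hv (T.nb_sub_cone _ _ (hcone k hv'))
    obtain ⟨N, V, hV, huV, htV, hN⟩ := hfin
    have hF : IsClosed (⋃ k ∈ Finset.range N, T.nb (j k) (s k)) := by
      apply Set.Finite.isClosed_biUnion (Finset.finite_toSet _)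
      intro k _
      exact (T.isClopen_nb _ _).1
    have hV' : IsOpen (V ∩ (⋃ k ∈ Finset.range N, T.nb (j k) (s k))ᶜ) := hV.inter hF.isOpen_compl
    obtain ⟨m, hm⟩ := (T.isOpen_def).1 hV' u ⟨huV, by
      simp only [Set.mem_compl_iff, Set.mem_iUnion, not_exists]
      intro k _
      exact huB k⟩
    refine ⟨m, hm.trans ?_⟩
    rintro v ⟨hv1, hv2⟩ (hv3 | hv3)
    · obtain ⟨k, hk⟩ := Set.mem_iUnion.1 hv3
      rcases lt_or_ge k N with h | h
      · apply hv2
        simp only [Set.mem_iUnion]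
        exact ⟨k, Finset.mem_range.2 h, hk⟩
      · exact Set.disjoint_left.1 (hN k h) hv1 hk
    · have : v = t := hv3
      rw [this] at hv1
      exact htV hv1
  ext u
  constructor
  · rintro ⟨hu1, hu2⟩
    have h3 : u ∈ (⋃ k, T.nb (j k) (s k)) ∪ {t} :=
      closure_minimal Set.subset_union_left hcl hu1
    rcases h3 with h3 | h3
    · exact absurd (hBA h3) hu2
    · exact h3
  · intro hu
    have hu' : u = t := hu
    subst hu'
    refine ⟨?_, ht.2⟩
    rw [mem_closure_iff]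
    intro O hO huO
    obtain ⟨k, hk⟩ := (T.isOpen_def).1 hO u huO
    exact ⟨s k, hk (hs k), Set.mem_iUnion.2 ⟨k, T.mem_nb_self _ _⟩⟩

end TreeSys

end Pool.Agent.Lib.MP_6bb66b_gt
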